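import Pool.Agent.Skula.Main

namespace Pool.Agent.Results.MP_87b039_gt.NonCanonical

open Pool.Agent.Skula

/-- There are a narrow, order-scattered (and even well-founded) poset `P` and a closed subset `K`
of `FS P` which is not canonically Skula. -/
theorem result : ∃ (P : Type) (_ : PartialOrder P),
    Narrow P ∧ OrderScattered P ∧ WellFoundedLT P ∧
      ∃ K : Set (P → Bool), K ⊆ FS P ∧ IsClosed K ∧ ¬ CanonicallySkula K := by
  obtain ⟨P, i, hw, hn, ho, hK⟩ := exists_not_canonicallySkula
  exact ⟨P, i, hn, ho, hw, hK⟩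

end Pool.Agent.Results.MP_87b039_gt.NonCanonical
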